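import Mathlib

/-!
# Hermitian metrics on compact locally homogeneous complex manifolds: definitions

Let `G` be a Lie group with Lie algebra `L`, `K` a compact connected subgroup with Lie algebra `k`
and `Γ` a discrete subgroup such that `X = G / Γ` is compact. The vector fields `ξ_v`, `v ∈ L`, with
`ξ_v (x) = d/dt (exp (-t v) x)` trivialise the tangent bundle of `X` and `[ξ_v, ξ_w] = ξ_[v, w]`.
Hence a differential form on `X` is a function of a point of `X` and of a tuple of elements of `L`,
smooth in the first variable.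

The tensors on `M = K \ G / Γ` (a compact manifold if `Γ` acts freely on `K \ G`) are the basic
tensors on `X`: those which vanish as soon as one argument is tangent to the orbits of `K` (that is,
belongs to `k`) and which are invariant under `K` (that is, their Lie derivatives along `ξ_c`,
`c ∈ k`, vanish). The exterior derivative of forms on `M` is the one of `X`.
-/

open Module Manifold ContDiff MeasureTheory

namespace Pool.Agent.Helper8.KW

section

variable {L : Type*}

/-- The tuple obtained from `x` by deleting the `i`-th entry and then the `j`-th entry of the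
remaining tuple. -/
def del {k : ℕ} (x : Fin (k + 2) → L) (i : Fin (k + 2)) (j : Fin (k + 1)) : Fin k → L :=
  fun l => x (i.succAbove (j.succAbove l))

/-- The wedge product of a `2`-form `β` and a `k`-form `η`:
`(β ∧ η)(x_0, …, x_(k+1)) = ∑_{i < j} (-1)^(i+j-1) β(x_i, x_j) η(x_0, …, x̂_i, …, x̂_j, …)`. -/
noncomputable def wedge {k : ℕ} (β : L → L → ℝ) (η : (Fin k → L) → ℝ) (x : Fin (k + 2) → L) : ℝ :=
  ∑ i : Fin (k + 2), ∑ j : Fin (k + 1), if i.val ≤ j.val then
    (-1) ^ (i.val + j.val) * (β (x i) (x (i.succAbove j)) * η (del x i j)) else 0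

/-- The wedge powers `β ^ m` of a `2`-form. -/
noncomputable def wedgePow (β : L → L → ℝ) : (m : ℕ) → (Fin (2 * m) → L) → ℝ
  | 0 => fun _ => 1
  | m + 1 => wedge (k := 2 * m) β (wedgePow β m)

end

/-- Which real functions on `X` are smooth, and the derivatives `ξ_v f` of functions `f` on `X`
along the vector fields `ξ_v`. -/
structure Calculus (X L : Type*) where
  smooth : (X → ℝ) → Prop
  deriv : L → (X → ℝ) → X → ℝ

variable {X L : Type*} [LieRing L] [LieAlgebra ℝ L]

variable (L) in
/-- The Lie algebra is unimodular: every `ad v` has trace zero. -/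
def IsUnimodular : Prop := ∀ v : L, LinearMap.trace ℝ L (LieAlgebra.ad ℝ L v) = 0

/-- The exterior derivative of a `k`-form `W` on `X`, `k ≥ 1`:
`dW (v_0, …, v_k) = ∑ i, (-1)^i ξ_{v_i} (W (v_0, …, v̂_i, …, v_k)) +
∑_{i < j} (-1)^(i+j) W ([v_i, v_j], v_0, …, v̂_i, …, v̂_j, …, v_k)` (the second index is written
`j = j' + 1` with `i ≤ j'`). -/
noncomputable def Calculus.d (C : Calculus X L) {k : ℕ} (W : X → (Fin (k + 1) → L) → ℝ) (x : X)
    (v : Fin (k + 2) → L) : ℝ :=
  ∑ i : Fin (k + 2), (-1) ^ i.val * C.deriv (v i) (fun y => W y fun l => v (i.succAbove l)) x +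
    ∑ i : Fin (k + 2), ∑ j : Fin (k + 1), if i.val ≤ j.val then
      (-1) ^ (i.val + j.val + 1) * W x (Fin.cons ⁅v i, v (i.succAbove j)⁆ (del v i j)) else 0

variable (L) in
/-- An integrable invariant complex structure `J` on the homogeneous space with Lie algebra `L` and
isotropy algebra `k` (whose tangent space is `L / k`): `k` has an `ad k`-invariant complement (as
the Lie algebra of a compact subgroup has), and `J`, an endomorphism of `L`, preserves `k`, squares
to `-1` modulo `k`, commutes with `ad k` modulo `k`, and its Nijenhuis tensor vanishes modulo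
`k`. -/
structure InvariantComplexStructure where
  k : LieSubalgebra ℝ L
  J : L →ₗ[ℝ] L
  reductive : ∃ m : Submodule ℝ L, IsCompl m k.toSubmodule ∧ ∀ c ∈ k, ∀ x ∈ m, ⁅c, x⁆ ∈ m
  map_mem : ∀ c ∈ k, J c ∈ k
  sq : ∀ x, J (J x) + x ∈ k
  invariant : ∀ c ∈ k, ∀ x, ⁅c, J x⁆ - J ⁅c, x⁆ ∈ k
  integrable : ∀ x y, ⁅J x, J y⁆ - ⁅x, y⁆ - J (⁅J x, y⁆ + ⁅x, J y⁆) ∈ k

/-- A smooth Hermitian metric on `M`, as a basic tensor on `X`: a smooth field of symmetric bilinear
forms on `L`, with kernel `k`, positive modulo `k`, compatible with `J`, and with vanishing Lie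
derivative along `ξ_c`, `c ∈ k`. -/
structure Metric (C : Calculus X L) (S : InvariantComplexStructure L) where
  g : X → LinearMap.BilinForm ℝ L
  smooth : ∀ v w, C.smooth fun x => g x v w
  symm : ∀ x v w, g x v w = g x w v
  kernel : ∀ x, ∀ c ∈ S.k, ∀ v, g x c v = 0
  pos : ∀ x v, v ∉ S.k → 0 < g x v v
  hermitian : ∀ x v w, g x (S.J v) (S.J w) = g x v w
  invariant : ∀ c ∈ S.k, ∀ x v w, C.deriv c (fun y => g y v w) x = g x ⁅c, v⁆ w + g x v ⁅c, w⁆

namespace Metric

variable {C : Calculus X L} {S : InvariantComplexStructure L} (g : Metric C S)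

/-- The fundamental form `ω(v, w) = g(J v, w)`. -/
def omega (x : X) (v w : L) : ℝ := g.g x (S.J v) w

/-- The exterior derivative of the fundamental form. -/
noncomputable def dOmega : X → (Fin 3 → L) → ℝ := C.d (k := 1) fun x v => g.omega x (v 0) (v 1)

/-- `dω = 0`. -/
def Kahler : Prop := ∀ x v, g.dOmega x v = 0

/-- `d dᶜ ω = 0`, where `dᶜ ω = ± dω(J ·, J ·, J ·)`. -/
def Pluriclosed : Prop := ∀ x v, C.d (k := 2) (fun y w => g.dOmega y fun i => S.J (w i)) x v = 0

/-- `d (ω ^ (n - 1)) = 0`, where `2 n = dim L - dim k` is the dimension of `M` (an empty condition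
if `n ≤ 1`). -/
def Balanced : Prop :=
  ∀ m : ℕ, finrank ℝ L = finrank ℝ S.k + 2 * (m + 2) →
    ∀ x v, C.d (k := 2 * m + 1) (fun y => wedgePow (g.omega y) (m + 1)) x v = 0

/-- The metric is locally homogeneous: it is constant as a function on `X`. -/
def LocallyHomogeneous : Prop := ∀ x y, g.g x = g.g y

/-- The fundamental form of `g` is the sum of the average of the fundamental form of `h` and of the
`(1,1)`-part of the differential of an invariant basic `1`-form (`-α`). -/
def IsAverage [MeasurableSpace X] (μ : Measure X) (h : Metric C S) : Prop :=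
  ∃ α : Dual ℝ L, (∀ c ∈ S.k, α c = 0) ∧ (∀ c ∈ S.k, ∀ v, α ⁅c, v⁆ = 0) ∧
    ∀ x v w, g.omega x v w =
      (∫ y, h.omega y v w ∂μ) + (1 / 2) * (α ⁅v, w⁆ + α ⁅S.J v, S.J w⁆)

end Metric

section group

variable (E G : Type*) [NormedAddCommGroup E] [NormedSpace ℝ E] [FiniteDimensional ℝ E]
variable [TopologicalSpace G] [ChartedSpace E G] [Group G] [LieGroup 𝓘(ℝ, E) ∞ G]

instance : ENat.LEInfty (minSmoothness ℝ 3) :=
  ⟨by rw [minSmoothness_of_isRCLikeNormedField]; exact ENat.LEInfty.out⟩

/-- The Lie algebra of `G` (the tangent space at `1`, with the bracket of left-invariant vector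
fields). -/
def LieAlg : Type _ := GroupLieAlgebra 𝓘(ℝ, E) G

noncomputable instance : LieRing (LieAlg E G) :=
  (inferInstance : LieRing (GroupLieAlgebra 𝓘(ℝ, E) G))

noncomputable instance : LieAlgebra ℝ (LieAlg E G) :=
  (inferInstance : LieAlgebra ℝ (GroupLieAlgebra 𝓘(ℝ, E) G))

variable {G}

/-- The quotient `G / Γ`: a real function on it is smooth if its pullback to `G` is; `ξ_v f (x)` is
the derivative at `g = 1` in the direction `v` of `g ↦ f (g⁻¹ x)`. -/
noncomputable def calculus (Γ : Subgroup G) : Calculus (G ⧸ Γ) (LieAlg E G) where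
  smooth f := ContMDiff 𝓘(ℝ, E) 𝓘(ℝ, ℝ) ∞ fun g : G => f g
  deriv v f x := mfderiv 𝓘(ℝ, E) 𝓘(ℝ, ℝ) (fun g : G => f (g⁻¹ • x)) 1 v

end group

end Pool.Agent.Helper8.KW
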