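import Pool.Agent.Helper8.KV.LMain
import Pool.Agent.Helper8.KW.Pub

/-!
# Compact locally homogeneous complex manifolds, with the definitions of `Pub`
-/

open Module Manifold ContDiff MeasureTheory
open Pool.Agent.Helper77

namespace Pool.Agent.Helper8.KW

theorem wedgePow_eq {L : Type*} [LieRing L] [LieAlgebra ℝ L] (β : L → L → ℝ) (m : ℕ) :
    wedgePow β m = LieForms.wedgePow β m := by
  induction m with
  | zero => rfl
  | succ m ih =>
    rw [wedgePow, LieForms.wedgePow, ih]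
    rfl

variable {E : Type*} [NormedAddCommGroup E] [NormedSpace ℝ E] [FiniteDimensional ℝ E]
variable {G : Type*} [TopologicalSpace G] [ChartedSpace E G] [Group G] [LieGroup 𝓘(ℝ, E) ∞ G]
variable {Γ : Subgroup G} {S : InvariantComplexStructure (LieAlg E G)}

/-- conversion -/
def kk (S : InvariantComplexStructure (LieAlg E G)) : LieSubalgebra ℝ (LH.LieAlg E G) := S.k

/-- conversion -/
def JJ (S : InvariantComplexStructure (LieAlg E G)) : LH.LieAlg E G →ₗ[ℝ] LH.LieAlg E G := S.J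

theorem isInv : KV.IsInvariantComplexStructure (kk S) (JJ S) :=
  ⟨S.map_mem, S.sq, S.invariant, S.integrable⟩

theorem isRed : KV.IsReductive (kk S) := S.reductive

theorem isMet (g : Metric (calculus E Γ) S) : KV.IsBasicMetric (kk S) (JJ S) g.g :=
  ⟨g.smooth, g.symm, g.kernel, g.pos, g.hermitian, g.invariant⟩

theorem main [DiscreteTopology Γ] [CompactSpace (G ⧸ Γ)]
    [MeasurableSpace (G ⧸ Γ)] [BorelSpace (G ⧸ Γ)] (μ : Measure (G ⧸ Γ))
    [IsProbabilityMeasure μ] [SMulInvariantMeasure G (G ⧸ Γ) μ]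
    (hL : IsUnimodular (LieAlg E G)) (g₁ g₂ : Metric (calculus E Γ) S)
    (h₁ : g₁.Balanced) (h₂ : g₂.Pluriclosed) :
    ∃ g₃ : Metric (calculus E Γ) S, g₃.Kahler ∧ g₃.LocallyHomogeneous ∧ g₃.IsAverage μ g₂ := by
  have hb : KV.BasicBalanced (kk S) (JJ S) g₁.g := by
    intro m hm x v
    have h := h₁ m hm x v
    simp only [wedgePow_eq] at h
    exact h
  obtain ⟨g₃, h3, hK, α, ha, hb, hc⟩ :=
    KV.exists_kahler_basic (E := E) (G := G) (k := kk S) (J := JJ S) (g₁ := g₁.g) (g₂ := g₂.g) μ hL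
      isRed isInv (isMet g₁) hb (isMet g₂) h₂
  exact ⟨⟨fun _ => g₃, h3.smooth, h3.symm, h3.kernel, h3.pos, h3.hermitian, h3.invariant⟩, hK,
    fun _ _ => rfl, α, ha, hb, fun _ => hc⟩

end Pool.Agent.Helper8.KW
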